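import Pool.Agent.H36.ZDom

open Pool.Agent.H38.NP Pool.Agent.H36.ZDom

theorem Pool.Agent.Results.MP_f6aff2_lc.Hard.result :
    NPHard (lang fun p : (ℕ × List (ℕ × ℕ)) × ℕ => gammaZ (graphOf p.1.1 p.1.2) ≤ p.2) :=
  hard.npHard fun _ _ => Iff.rfl
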